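import Mathlib

/-!
# Binary digits
-/

set_option autoImplicit false

namespace Pool.Agent.R593.Gf

open Filter Topology

/-- The `j`-th binary digit after the binary point of a real number. -/
noncomputable def dig (x : ℝ) (j : ℕ) : Bool := decide (⌊(2:ℝ)^(j+1) * x⌋ % 2 = 1)

theorem floor_two_mul (y : ℝ) : ⌊2 * y⌋ = 2 * ⌊y⌋ ∨ ⌊2 * y⌋ = 2 * ⌊y⌋ + 1 := by
  have h1 : 2 * ⌊y⌋ ≤ ⌊2 * y⌋ := by
    apply Int.le_floor.2
    push_cast
    have := Int.floor_le y
    linarith
  have h2 : ⌊2 * y⌋ < 2 * ⌊y⌋ + 2 := by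
    apply Int.floor_lt.2
    push_cast
    have := Int.lt_floor_add_one y
    linarith
  omega

theorem dig_eq_of_floor {x x' : ℝ} (n : ℕ) (h : ⌊(2:ℝ)^n * x⌋ = ⌊(2:ℝ)^n * x'⌋) :
    ∀ j < n, dig x j = dig x' j := by
  induction n with
  | zero => intro j hj; omega
  | succ n ih =>
    have e1 : (2:ℝ)^(n+1) * x = 2 * ((2:ℝ)^n * x) := by ring
    have e2 : (2:ℝ)^(n+1) * x' = 2 * ((2:ℝ)^n * x') := by ring
    intro j hj
    rcases Nat.lt_succ_iff_lt_or_eq.1 hj with h1 | rfl
    · refine ih ?_ j h1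
      rw [e1, e2] at h
      rcases floor_two_mul ((2:ℝ)^n * x) with h3 | h3 <;>
        rcases floor_two_mul ((2:ℝ)^n * x') with h4 | h4 <;> omega
    · unfold dig
      rw [h]

theorem measurableSet_dig (j : ℕ) (v : Bool) : MeasurableSet {x : ℝ | dig x j = v} := by
  have h1 : Measurable fun x : ℝ => ⌊(2:ℝ)^(j+1) * x⌋ :=
    Int.measurable_floor.comp (measurable_const_mul _)
  have h2 : {x : ℝ | dig x j = v} = (fun x : ℝ => ⌊(2:ℝ)^(j+1) * x⌋) ⁻¹' {n | decide (n % 2 = 1) = v} :=
    rfl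
  rw [h2]
  exact h1 (MeasurableSet.of_discrete)

/-! ### The value of a sequence of digits -/

/-- The real number with the given binary digits. -/
noncomputable def val (z : ℕ → Bool) : ℝ := ∑' j, (if z j then (1/2:ℝ)^(j+1) else 0)

theorem summable_val (z : ℕ → Bool) : Summable fun j => (if z j then (1/2:ℝ)^(j+1) else 0) := by
  refine Summable.of_nonneg_of_le (fun j => ?_) (fun j => ?_)
    ((summable_geometric_of_lt_one (r := (1/2:ℝ)) (by norm_num) (by norm_num)))
  · split_ifs <;> positivity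
  · have h1 : (0:ℝ) ≤ (1/2:ℝ)^j := by positivity
    split_ifs
    · rw [pow_succ]; linarith
    · exact h1

theorem val_nonneg (z : ℕ → Bool) : 0 ≤ val z :=
  tsum_nonneg fun j => by split_ifs <;> positivity

theorem val_succ (z : ℕ → Bool) :
    val z = (if z 0 then 1/2 else 0) + (1/2) * val (fun j => z (j+1)) := by
  unfold val
  rw [(summable_val z).tsum_eq_zero_add, ← tsum_mul_left]
  congr 1
  · simp
  · refine tsum_congr fun j => ?_
    split_ifs
    · rw [pow_succ]; ring
    · simp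

theorem val_le_one (z : ℕ → Bool) : val z ≤ 1 := by
  have h1 : val z ≤ ∑' j : ℕ, (1/2:ℝ)^(j+1) := by
    refine (summable_val z).tsum_le_tsum (fun j => ?_) ?_
    · split_ifs
      · exact le_rfl
      · positivity
    · simp only [pow_succ]
      exact (summable_geometric_of_lt_one (r := (1/2:ℝ)) (by norm_num)
        (by norm_num)).mul_right (1/2)
  have h2 : ∑' j : ℕ, (1/2:ℝ)^(j+1) = 1 := by
    simp only [pow_succ]
    rw [tsum_mul_right, tsum_geometric_of_lt_one (by norm_num) (by norm_num)]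
    norm_num
  exact h1.trans h2.le

theorem val_lt_one {z : ℕ → Bool} : ∀ j, z j = false → val z < 1 := by
  intro j
  induction j generalizing z with
  | zero =>
    intro h
    rw [val_succ, h]
    have := val_le_one fun j => z (j+1)
    simp only [Bool.false_eq_true, if_false]
    linarith
  | succ j ih =>
    intro h
    have h1 := ih (z := fun j => z (j+1)) h
    rw [val_succ]
    split_ifs <;> linarith

/-- The integer part of `2 ^ n * val z`. -/
def pre (z : ℕ → Bool) : ℕ → ℤ
  | 0 => 0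
  | n + 1 => 2 * pre z n + (if z n then 1 else 0)

theorem pow_mul_val (z : ℕ → Bool) (n : ℕ) :
    (2:ℝ)^n * val z = pre z n + val (fun j => z (j+n)) := by
  induction n with
  | zero => simp [pre]
  | succ n ih =>
    have h1 := val_succ fun j => z (j+n)
    have h2 : (fun j => (fun j => z (j+n)) (j+1)) = fun j => z (j+(n+1)) := by
      funext j
      simp only
      congr 1
      ring
    rw [h2] at h1
    simp only [Nat.zero_add] at h1
    rw [pow_succ, mul_right_comm, ih, h1]
    simp only [pre]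
    push_cast
    split_ifs <;> ring

theorem floor_val {z : ℕ → Bool} (hz : ∀ n, ∃ j, n ≤ j ∧ z j = false) (n : ℕ) :
    ⌊(2:ℝ)^n * val z⌋ = pre z n := by
  rw [pow_mul_val, Int.floor_intCast_add]
  obtain ⟨j, hj, hj'⟩ := hz n
  have h1 : val (fun j => z (j+n)) < 1 := by
    refine val_lt_one (j - n) ?_
    show z (j - n + n) = false
    rw [Nat.sub_add_cancel hj]
    exact hj'
  have h2 : ⌊val fun j => z (j+n)⌋ = 0 := Int.floor_eq_zero_iff.2 ⟨val_nonneg _, h1⟩
  rw [h2, add_zero]

theorem dig_val {z : ℕ → Bool} (hz : ∀ n, ∃ j, n ≤ j ∧ z j = false) (j : ℕ) :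
    dig (val z) j = z j := by
  unfold dig
  rw [floor_val hz]
  have h1 : pre z (j + 1) = 2 * pre z j + (if z j then 1 else 0) := rfl
  by_cases h : z j = true
  · rw [h] at h1 ⊢
    rw [if_pos rfl] at h1
    exact decide_eq_true (by omega)
  · rw [Bool.not_eq_true] at h
    rw [h] at h1 ⊢
    rw [if_neg (by decide)] at h1
    exact decide_eq_false (by omega)

theorem pre_dig {y : ℝ} (h0 : 0 ≤ y) (h1 : y < 1) (n : ℕ) : pre (dig y) n = ⌊(2:ℝ)^n * y⌋ := by
  induction n with
  | zero =>
    simp only [pre, pow_zero, one_mul]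
    exact (Int.floor_eq_zero_iff.2 ⟨h0, h1⟩).symm
  | succ n ih =>
    simp only [pre, ih]
    have e1 : (2:ℝ)^(n+1) * y = 2 * ((2:ℝ)^n * y) := by ring
    unfold dig
    rw [e1]
    rcases floor_two_mul ((2:ℝ)^n * y) with h3 | h3 <;> rw [h3]
    · have : ¬ (2 * ⌊(2:ℝ)^n * y⌋ % 2 = 1) := by omega
      simp [this]
    · have : ((2 * ⌊(2:ℝ)^n * y⌋ + 1) % 2 = 1) := by omega
      simp [this]

theorem val_dig {y : ℝ} (h0 : 0 ≤ y) (h1 : y < 1) : val (dig y) = y := by
  have h2 : ∀ n : ℕ, |val (dig y) - y| ≤ (1/2:ℝ)^n := by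
    intro n
    have e1 := pow_mul_val (dig y) n
    rw [pre_dig h0 h1] at e1
    have h3 := val_nonneg fun j => dig y (j+n)
    have h4 := val_le_one fun j => dig y (j+n)
    have h5 := Int.floor_le ((2:ℝ)^n * y)
    have h6 := Int.lt_floor_add_one ((2:ℝ)^n * y)
    have h7 : |(2:ℝ)^n * (val (dig y) - y)| ≤ 1 := by
      rw [abs_le]
      constructor <;> linarith [mul_sub ((2:ℝ)^n) (val (dig y)) y]
    rw [abs_mul, abs_of_pos (by positivity : (0:ℝ) < 2^n)] at h7
    rw [one_div_pow, le_div_iff₀ (by positivity)]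
    linarith
  have h3 : Tendsto (fun n : ℕ => (1/2:ℝ)^n) atTop (𝓝 0) :=
    tendsto_pow_atTop_nhds_zero_of_lt_one (by norm_num) (by norm_num)
  have h4 : |val (dig y) - y| ≤ 0 := ge_of_tendsto' h3 h2
  exact sub_eq_zero.1 (abs_nonpos_iff.1 h4)

theorem abs_val_sub {z z' : ℕ → Bool} (m : ℕ) (h : ∀ i < m, z i = z' i) :
    |val z - val z'| ≤ (1/2:ℝ)^m := by
  induction m generalizing z z' with
  | zero =>
    rw [pow_zero, abs_le]
    have := val_nonneg z
    have := val_nonneg z'
    have := val_le_one z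
    have := val_le_one z'
    constructor <;> linarith
  | succ m ih =>
    have h1 := ih (z := fun j => z (j+1)) (z' := fun j => z' (j+1)) fun i hi => h (i+1) (by omega)
    rw [val_succ z, val_succ z', h 0 (by omega)]
    have h2 : ((if z' 0 then (1/2:ℝ) else 0) + 1/2 * val (fun j => z (j+1))) -
        ((if z' 0 then (1/2:ℝ) else 0) + 1/2 * val (fun j => z' (j+1))) =
        1/2 * (val (fun j => z (j+1)) - val (fun j => z' (j+1))) := by ring
    rw [h2, abs_mul, abs_of_pos (by norm_num : (0:ℝ) < 1/2), pow_succ]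
    linarith

/-! ### Merging two sequences of digits -/

section Mix

variable (S : Set ℕ)

open Classical in
/-- The digits of `x` (each followed by a zero) are put at the positions in `S`, the digits of `u`
at the other ones. -/
noncomputable def mix (x u : ℕ → Bool) : ℕ → Bool := fun j =>
  if j ∈ S then (if Even (Nat.count (· ∈ S) j) then x (Nat.count (· ∈ S) j / 2) else false)
  else u (Nat.count (fun j => ¬ j ∈ S) j)

/-- the code of a real number -/
noncomputable def dx (r : ℝ) (m : ℕ) : Bool := dig r (Nat.nth (· ∈ S) (2 * m))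

/-- the second coordinate of a real number -/
noncomputable def yv (r : ℝ) : ℝ := val fun i => dig r (Nat.nth (fun j => ¬ j ∈ S) i)

variable {S}

theorem mix_false (hS : S.Infinite) (x u : ℕ → Bool) (n : ℕ) : ∃ j, n ≤ j ∧ mix S x u j = false := by
  classical
  refine ⟨Nat.nth (· ∈ S) (2 * n + 1), ?_, ?_⟩
  · have : 2 * n + 1 ≤ Nat.nth (· ∈ S) (2 * n + 1) := (Nat.nth_strictMono hS).le_apply
    omega
  · have h1 : Nat.nth (· ∈ S) (2 * n + 1) ∈ S := Nat.nth_mem_of_infinite hS _
    have h2 : Nat.count (· ∈ S) (Nat.nth (· ∈ S) (2 * n + 1)) = 2 * n + 1 :=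
      Nat.count_nth_of_infinite (p := (· ∈ S)) hS _
    unfold mix
    rw [if_pos h1, h2, if_neg]
    rw [Nat.not_even_iff_odd]
    exact ⟨n, rfl⟩

theorem dx_mix (hS : S.Infinite) (x u : ℕ → Bool) (m : ℕ) : dx S (val (mix S x u)) m = x m := by
  classical
  unfold dx
  rw [dig_val (mix_false hS x u)]
  have h1 : Nat.nth (· ∈ S) (2 * m) ∈ S := Nat.nth_mem_of_infinite hS _
  have h2 : Nat.count (· ∈ S) (Nat.nth (· ∈ S) (2 * m)) = 2 * m :=
    Nat.count_nth_of_infinite (p := (· ∈ S)) hS _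
  unfold mix
  rw [if_pos h1, h2, if_pos (even_two_mul m), Nat.mul_div_cancel_left m (by norm_num)]

theorem yv_mix (hS : S.Infinite) (hS' : Sᶜ.Infinite) (x u : ℕ → Bool) :
    yv S (val (mix S x u)) = val u := by
  classical
  unfold yv
  congr 1
  funext i
  rw [dig_val (mix_false hS x u)]
  have hS'' : {j | ¬ j ∈ S}.Infinite := hS'
  have h1 : ¬ Nat.nth (fun j => ¬ j ∈ S) i ∈ S := Nat.nth_mem_of_infinite hS'' _
  have h2 : Nat.count (fun j => ¬ j ∈ S) (Nat.nth (fun j => ¬ j ∈ S) i) = i :=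
    Nat.count_nth_of_infinite (p := fun j => ¬ j ∈ S) hS'' _
  unfold mix
  rw [if_neg h1, h2]

open Classical in
theorem abs_yv_sub {r r' : ℝ} (n : ℕ) (h : ⌊(2:ℝ)^n * r⌋ = ⌊(2:ℝ)^n * r'⌋) :
    |yv S r - yv S r'| ≤ (1/2:ℝ)^(Nat.count (fun j => ¬ j ∈ S) n) := by
  refine abs_val_sub _ fun i hi => ?_
  exact dig_eq_of_floor n h _ (Nat.nth_lt_of_lt_count hi)

open Classical in
theorem count_add (n : ℕ) :
    Nat.count (fun j => ¬ j ∈ S) n + Nat.count (· ∈ S) n = n := by
  induction n with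
  | zero => simp
  | succ n ih =>
    rw [Nat.count_succ, Nat.count_succ]
    by_cases h : n ∈ S
    · simp only [h, not_true_eq_false, if_false, if_true]
      omega
    · simp only [h, not_false_eq_true, if_false, if_true]
      omega

end Mix

end Pool.Agent.R593.Gf
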