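import Mathlib
import Pool.Agent.R593.Gf.Dig

/-!
# Codes for null sets, and small sets are null for every measure without atoms
-/

set_option autoImplicit false

namespace Pool.Agent.R593.Gf

open Filter Topology MeasureTheory Set Cardinal
open scoped ENNReal

/-! ### Codes for null sets -/

/-- The `m`-th rational interval. -/
noncomputable def ivl (m : ℕ) : Set ℝ :=
  Ioo (((Denumerable.eqv (ℚ × ℚ)).symm m).1 : ℝ) (((Denumerable.eqv (ℚ × ℚ)).symm m).2 : ℝ)

/-- The `n`-th open set of the code `x`. -/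
def opn (x : ℕ → Bool) (n : ℕ) : Set ℝ := {y | ∃ m, x (Nat.pair n m) = true ∧ y ∈ ivl m}

theorem exists_code {N : Set ℝ} (hN : volume N = 0) :
    ∃ x : ℕ → Bool, ∀ n, volume (opn x n) ≤ (2:ℝ≥0∞)⁻¹ ^ n ∧ N ⊆ opn x n := by
  classical
  have h1 : ∀ n : ℕ, ∃ O : Set ℝ, N ⊆ O ∧ IsOpen O ∧ volume O ≤ (2:ℝ≥0∞)⁻¹ ^ n := by
    intro n
    obtain ⟨O, hO1, hO2, hO3⟩ := N.exists_isOpen_le_add (volume : Measure ℝ)
      (ε := (2:ℝ≥0∞)⁻¹ ^ n) (pow_ne_zero _ (ENNReal.inv_ne_zero.2 (by norm_num)))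
    refine ⟨O, hO1, hO2, ?_⟩
    rwa [hN, zero_add] at hO3
  choose O hO1 hO2 hO3 using h1
  let x : ℕ → Bool := fun k => decide (ivl k.unpair.2 ⊆ O k.unpair.1)
  have h2 : ∀ n, opn x n = O n := by
    intro n
    ext y
    constructor
    · rintro ⟨m, hm, hy⟩
      have h3 := of_decide_eq_true hm
      rw [Nat.unpair_pair] at h3
      exact h3 hy
    · intro hy
      obtain ⟨v, hv, hyv, hvO⟩ :=
        Real.isTopologicalBasis_Ioo_rat.exists_subset_of_mem_open hy (hO2 n)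
      simp only [mem_iUnion, mem_singleton_iff, exists_prop] at hv
      obtain ⟨a, b, _, rfl⟩ := hv
      have h4 : ivl ((Denumerable.eqv (ℚ × ℚ)) (a, b)) = Ioo (a:ℝ) b := by
        unfold ivl
        rw [Equiv.symm_apply_apply]
      refine ⟨(Denumerable.eqv (ℚ × ℚ)) (a, b), ?_, ?_⟩
      · refine decide_eq_true ?_
        rw [Nat.unpair_pair, h4]
        exact hvO
      · rw [h4]
        exact hyv
  exact ⟨x, fun n => by rw [h2]; exact ⟨hO3 n, hO1 n⟩⟩

/-! ### Coverings of null sets -/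

theorem cover_null {N : Set ℝ} (hN : volume N = 0) {ε : ℝ≥0∞} (hε : ε ≠ 0) :
    ∃ t : ℕ → Set ℝ, N ⊆ ⋃ i, t i ∧ (∀ i, Metric.ediam (t i) ≤ 1) ∧
      ∑' i, Metric.ediam (t i) < ε := by
  rw [← hausdorffMeasure_real, Measure.hausdorffMeasure_apply] at hN
  have h1 := (iSup_eq_bot.1 (iSup_eq_bot.1 hN 1)) one_pos
  rw [← bot_eq_zero] at hε
  have h2 : (⨅ (t : ℕ → Set ℝ) (_ : N ⊆ ⋃ n, t n) (_ : ∀ n, Metric.ediam (t n) ≤ 1),
      ∑' n, ⨆ _ : (t n).Nonempty, Metric.ediam (t n) ^ (1:ℝ)) < ε := by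
    rw [h1]
    exact bot_lt_iff_ne_bot.2 hε
  simp only [iInf_lt_iff] at h2
  obtain ⟨t, ht1, ht2, ht3⟩ := h2
  refine ⟨t, ht1, ht2, lt_of_le_of_lt (ENNReal.tsum_le_tsum fun i => ?_) ht3⟩
  rcases (t i).eq_empty_or_nonempty with h | h
  · rw [h, Metric.ediam_empty]
    exact bot_le
  · rw [ciSup_pos h, ENNReal.rpow_one]

section Cdf

variable (μ : Measure ℝ) [IsFiniteMeasure μ]

theorem real_Iic_mono : Monotone fun x => μ.real (Iic x) := fun x y hxy =>
  measureReal_mono (Iic_subset_Iic.2 hxy)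

theorem measure_Icc_le (h0 : ∀ x, μ {x} = 0) {u v : ℝ} (huv : u ≤ v) :
    μ (Icc u v) = ENNReal.ofReal (μ.real (Iic v) - μ.real (Iic u)) := by
  have h1 : Icc u v = {u} ∪ Ioc u v := by
    ext z
    simp only [mem_Icc, mem_union, mem_singleton_iff, mem_Ioc]
    constructor
    · rintro ⟨h1, h2⟩
      rcases eq_or_lt_of_le h1 with h3 | h3
      · exact Or.inl h3.symm
      · exact Or.inr ⟨h3, h2⟩
    · rintro (rfl | ⟨h1, h2⟩)
      · exact ⟨le_rfl, huv⟩
      · exact ⟨h1.le, h2⟩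
  have h2 : μ (Icc u v) = μ (Ioc u v) := by
    rw [h1]
    refine le_antisymm ?_ (measure_mono subset_union_right)
    refine (measure_union_le _ _).trans ?_
    rw [h0, zero_add]
  have h3 : μ.real (Iic v) = μ.real (Iic u) + μ.real (Ioc u v) := by
    rw [← Iic_union_Ioc_eq_Iic huv]
    refine measureReal_union ?_ measurableSet_Ioc
    exact Set.disjoint_left.2 fun z h1 h2 => absurd h2.1 (not_lt.2 h1)
  rw [h2, h3, add_sub_cancel_left, measureReal_def, ENNReal.ofReal_toReal (measure_ne_top _ _)]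

theorem measure_preimage_le (h0 : ∀ x, μ {x} = 0) (a b : ℝ) :
    μ ((fun x => μ.real (Iic x)) ⁻¹' Icc a b) ≤ ENNReal.ofReal (b - a) := by
  have hm : MeasurableSet ((fun x => μ.real (Iic x)) ⁻¹' Icc a b) :=
    (real_Iic_mono μ).measurable measurableSet_Icc
  rw [hm.measure_eq_iSup_isCompact]
  refine iSup_le fun K => iSup_le fun hK => iSup_le fun hKc => ?_
  rcases K.eq_empty_or_nonempty with rfl | hne
  · rw [measure_empty]
    exact bot_le
  · have h1 := hK (hKc.sInf_mem hne)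
    have h2 := hK (hKc.sSup_mem hne)
    have h3 : sInf K ≤ sSup K := Real.sInf_le_sSup K hKc.bddBelow hKc.bddAbove
    have h4 : K ⊆ Icc (sInf K) (sSup K) := fun z hz =>
      ⟨csInf_le hKc.bddBelow hz, le_csSup hKc.bddAbove hz⟩
    refine (measure_mono h4).trans ?_
    rw [measure_Icc_le μ h0 h3]
    apply ENNReal.ofReal_le_ofReal
    have h5 : μ.real (Iic (sSup K)) ≤ b := h2.2
    have h6 : a ≤ μ.real (Iic (sInf K)) := h1.1
    linarith

/-- A set whose images are Lebesgue null is null for each finite measure without atoms. -/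
theorem null_of_small (h0 : ∀ x, μ {x} = 0) {B : Set ℝ} (hB : ∀ C : Set ℝ, #C ≤ #B → volume C = 0) :
    μ B = 0 := by
  have hC : volume ((fun x => μ.real (Iic x)) '' B) = 0 := hB _ mk_image_le
  by_contra hne
  obtain ⟨t, ht1, ht2, ht3⟩ := cover_null hC hne
  refine absurd ht3 (not_lt.2 ?_)
  have h1 : B ⊆ ⋃ i, (fun x => μ.real (Iic x)) ⁻¹' t i := by
    intro x hx
    obtain ⟨i, hi⟩ := mem_iUnion.1 (ht1 (mem_image_of_mem _ hx))
    exact mem_iUnion.2 ⟨i, hi⟩
  refine (measure_mono h1).trans ((measure_iUnion_le _).trans (ENNReal.tsum_le_tsum fun i => ?_))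
  rcases (t i).eq_empty_or_nonempty with h | h
  · rw [h, preimage_empty, measure_empty]
    exact bot_le
  · have hb : Bornology.IsBounded (t i) :=
      Metric.isBounded_iff_ediam_ne_top.2 (ne_top_of_le_ne_top ENNReal.one_ne_top (ht2 i))
    have h4 : t i ⊆ Icc (sInf (t i)) (sSup (t i)) := fun z hz =>
      ⟨csInf_le hb.bddBelow hz, le_csSup hb.bddAbove hz⟩
    rw [Real.ediam_eq hb]
    exact (measure_mono (preimage_mono h4)).trans (measure_preimage_le μ h0 _ _)

end Cdf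

end Pool.Agent.R593.Gf
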