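import Mathlib
import Pool.Agent.R593.Gf.Null

/-!
# Hausdorff measures with general gauges
-/

set_option autoImplicit false

namespace Pool.Agent.R593.Gf

open Filter Topology MeasureTheory Set
open scoped ENNReal

/-- `f` is a gauge function. -/
structure IsGauge (f : ℝ → ℝ) : Prop where
  mono : ∀ s t, 0 ≤ s → s ≤ t → f s ≤ f t
  right : ∀ t, 0 ≤ t → ContinuousWithinAt f (Ici t) t
  zero : f 0 = 0
  pos : ∀ t, 0 < t → 0 < f t

/-- `H^f_δ(A)`: the infimum of the sums of the `f (diam U_i)` over the countable coverings of `A`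
by sets `U_i` of diameter at most `δ`. -/
noncomputable def preH (f : ℝ → ℝ) (δ : ℝ) (A : Set ℝ) : ℝ≥0∞ :=
  ⨅ (U : ℕ → Set ℝ) (_ : A ⊆ ⋃ i, U i) (_ : ∀ i, Metric.ediam (U i) ≤ ENNReal.ofReal δ),
    ∑' i, ENNReal.ofReal (f (Metric.ediam (U i)).toReal)

/-- The Hausdorff outer measure `H^f(A)`, the limit (supremum) of `H^f_δ(A)` for `δ → 0`. -/
noncomputable def haus (f : ℝ → ℝ) (A : Set ℝ) : ℝ≥0∞ := ⨆ (δ : ℝ) (_ : 0 < δ), preH f δ A

/-- The same as a measure. -/
noncomputable def H (f : ℝ → ℝ) : Measure ℝ :=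
  Measure.mkMetric fun d => ENNReal.ofReal (f d.toReal)

theorem preH_anti (f : ℝ → ℝ) {δ δ' : ℝ} (h : δ ≤ δ') (A : Set ℝ) : preH f δ' A ≤ preH f δ A := by
  refine le_iInf fun U => le_iInf fun hU => le_iInf fun hd => ?_
  exact iInf_le_of_le U (iInf_le_of_le hU (iInf_le _
    fun i => (hd i).trans (ENNReal.ofReal_le_ofReal h)))

theorem haus_eq {f : ℝ → ℝ} (hf : IsGauge f) (A : Set ℝ) : haus f A = H f A := by
  have h1 : ∀ t : ℕ → Set ℝ, ∑' n, ⨆ _ : (t n).Nonempty,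
      ENNReal.ofReal (f (Metric.ediam (t n)).toReal) =
      ∑' i, ENNReal.ofReal (f (Metric.ediam (t i)).toReal) := by
    intro t
    refine tsum_congr fun i => ?_
    rcases (t i).eq_empty_or_nonempty with h | h
    · rw [h, Metric.ediam_empty, ENNReal.toReal_zero, hf.zero, ENNReal.ofReal_zero]
      simp
    · rw [ciSup_pos h]
  unfold H
  rw [Measure.mkMetric_apply]
  simp only [h1]
  refine le_antisymm ?_ ?_
  · refine iSup_le fun δ => iSup_le fun hδ => ?_
    exact le_iSup_of_le (ENNReal.ofReal δ) (le_iSup_of_le (ENNReal.ofReal_pos.2 hδ) le_rfl)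
  · refine iSup_le fun r => iSup_le fun hr => ?_
    obtain ⟨δ, hδ, hδr⟩ : ∃ δ : ℝ, 0 < δ ∧ ENNReal.ofReal δ ≤ r := by
      rcases eq_or_ne r ⊤ with rfl | hne
      · exact ⟨1, one_pos, le_top⟩
      · exact ⟨r.toReal, ENNReal.toReal_pos hr.ne' hne, ENNReal.ofReal_toReal_le⟩
    refine le_iSup_of_le δ (le_iSup_of_le hδ ?_)
    refine le_iInf fun U => le_iInf fun hU => le_iInf fun hd => ?_
    exact iInf_le_of_le U (iInf_le_of_le hU (iInf_le _ fun i => (hd i).trans hδr))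

theorem H_singleton {f : ℝ → ℝ} (hf : IsGauge f) (x : ℝ) : H f {x} = 0 := by
  have h1 := Measure.mkMetric_le_liminf_tsum (β := ℕ) (ι := fun _ => Unit) {x} (l := atTop)
    (fun _ => 0) tendsto_const_nhds (fun _ _ => {x}) (Eventually.of_forall fun _ _ => by simp)
    (Eventually.of_forall fun _ => by simp) fun d => ENNReal.ofReal (f d.toReal)
  refine le_antisymm (h1.trans ?_) bot_le
  simp [hf.zero]

/-! ### The lower bound -/

section Lower

variable {S : Set ℕ}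

open Classical in
theorem volume_yv_le {U : Set ℝ} {n : ℕ} (hU : Metric.ediam U ≤ ENNReal.ofReal ((1/2)^n)) :
    volume (yv S '' U) ≤ 3 * ENNReal.ofReal ((1/2)^(Nat.count (fun j => ¬ j ∈ S) n)) := by
  rcases U.eq_empty_or_nonempty with rfl | ⟨r0, hr0⟩
  · rw [image_empty, measure_empty]
    exact bot_le
  · let k := ⌊(2:ℝ)^n * r0⌋
    let V : ℤ → Set ℝ := fun i => {r | r ∈ U ∧ ⌊(2:ℝ)^n * r⌋ = i}
    have hV : ∀ i, volume (yv S '' V i) ≤
        ENNReal.ofReal ((1/2)^(Nat.count (fun j => ¬ j ∈ S) n)) := by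
      intro i
      refine (Real.volume_le_diam _).trans (Metric.ediam_le ?_)
      rintro _ ⟨r, hr, rfl⟩ _ ⟨r', hr', rfl⟩
      rw [edist_dist, Real.dist_eq]
      exact ENNReal.ofReal_le_ofReal (abs_yv_sub n (hr.2.trans hr'.2.symm))
    have hcov : yv S '' U ⊆ yv S '' V (k-1) ∪ yv S '' V k ∪ yv S '' V (k+1) := by
      rintro _ ⟨r, hr, rfl⟩
      have h1 : |r - r0| ≤ (1/2)^n := by
        have h2 := (Metric.edist_le_ediam_of_mem hr hr0).trans hU
        rw [edist_dist, Real.dist_eq, ENNReal.ofReal_le_ofReal_iff (by positivity)] at h2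
        exact h2
      have h2 : |(2:ℝ)^n * r - (2:ℝ)^n * r0| ≤ 1 := by
        rw [← mul_sub, abs_mul, abs_of_pos (by positivity : (0:ℝ) < 2^n)]
        calc (2:ℝ)^n * |r - r0| ≤ 2^n * (1/2)^n := by gcongr
          _ = 1 := by rw [← mul_pow]; norm_num
      rw [abs_le] at h2
      have h3 := Int.floor_le ((2:ℝ)^n * r)
      have h4 := Int.lt_floor_add_one ((2:ℝ)^n * r)
      have h5 := Int.floor_le ((2:ℝ)^n * r0)
      have h6 := Int.lt_floor_add_one ((2:ℝ)^n * r0)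
      have h7 : (⌊(2:ℝ)^n * r⌋ : ℝ) < (⌊(2:ℝ)^n * r0⌋ : ℝ) + 2 := by linarith
      have h8 : (⌊(2:ℝ)^n * r0⌋ : ℝ) < (⌊(2:ℝ)^n * r⌋ : ℝ) + 2 := by linarith
      have h9 : ⌊(2:ℝ)^n * r⌋ < ⌊(2:ℝ)^n * r0⌋ + 2 := by
        rw [← Int.cast_lt (R := ℝ)]
        push_cast
        exact h7
      have h10 : ⌊(2:ℝ)^n * r0⌋ < ⌊(2:ℝ)^n * r⌋ + 2 := by
        rw [← Int.cast_lt (R := ℝ)]
        push_cast
        exact h8
      have hk : k = ⌊(2:ℝ)^n * r0⌋ := rfl
      have h11 : ⌊(2:ℝ)^n * r⌋ = k - 1 ∨ ⌊(2:ℝ)^n * r⌋ = k ∨ ⌊(2:ℝ)^n * r⌋ = k + 1 := by omega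
      rcases h11 with h | h | h
      · exact Or.inl (Or.inl ⟨r, ⟨hr, h⟩, rfl⟩)
      · exact Or.inl (Or.inr ⟨r, ⟨hr, h⟩, rfl⟩)
      · exact Or.inr ⟨r, ⟨hr, h⟩, rfl⟩
    refine (measure_mono hcov).trans ((measure_union_le _ _).trans ?_)
    refine (add_le_add (measure_union_le _ _) le_rfl).trans ?_
    refine (add_le_add (add_le_add (hV _) (hV _)) (hV _)).trans (le_of_eq ?_)
    ring

open Classical in
theorem volume_yv_le_gauge {f : ℝ → ℝ} (hf : IsGauge f) {n0 : ℕ}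
    (hS : ∀ n, n0 ≤ n → (2:ℝ)^(Nat.count (· ∈ S) n + 1) ≤ f ((1/2)^(n+1)) * 2^(n+1))
    {U : Set ℝ} (hU : Metric.ediam U ≤ ENNReal.ofReal ((1/2)^n0)) :
    volume (yv S '' U) ≤ 3 * ENNReal.ofReal (f (Metric.ediam U).toReal) := by
  have hne : Metric.ediam U ≠ ⊤ := ne_top_of_le_ne_top ENNReal.ofReal_ne_top hU
  rcases eq_or_ne (Metric.ediam U) 0 with h0 | h0
  · have h1 : U.Subsingleton := Metric.ediam_eq_zero_iff.1 h0
    rw [(h1.image _).measure_zero]
    exact bot_le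
  · have hd : 0 < (Metric.ediam U).toReal := ENNReal.toReal_pos h0 hne
    have hd1 : (Metric.ediam U).toReal ≤ (1/2)^n0 := ENNReal.toReal_le_of_le_ofReal (by positivity) hU
    obtain ⟨n, hn1, hn2⟩ := exists_nat_pow_near_of_lt_one hd
      (hd1.trans (pow_le_one₀ (by norm_num) (by norm_num))) (by norm_num : (0:ℝ) < 1/2)
      (by norm_num : (1/2:ℝ) < 1)
    have hn : n0 ≤ n := by
      by_contra hcon
      have h2 : (1/2:ℝ)^n0 ≤ (1/2)^(n+1) :=
        pow_le_pow_of_le_one (by norm_num) (by norm_num) (by omega)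
      linarith
    have h3 : Metric.ediam U ≤ ENNReal.ofReal ((1/2)^n) := by
      rw [← ENNReal.ofReal_toReal hne]
      exact ENNReal.ofReal_le_ofReal hn2
    refine (volume_yv_le h3).trans ?_
    gcongr
    refine le_trans ?_ (hf.mono _ _ (by positivity) hn1.le)
    have h4 := hS n hn
    have h5 := count_add (S := S) n
    have h6 : (2:ℝ)^(n+1) = 2^(Nat.count (fun j => ¬ j ∈ S) n) * 2^(Nat.count (· ∈ S) n + 1) := by
      rw [← pow_add]
      congr 1
      omega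
    have h7 : (0:ℝ) < 2^(Nat.count (· ∈ S) n + 1) := by positivity
    have h8 : (1:ℝ) ≤ f ((1/2)^(n+1)) * 2^(Nat.count (fun j => ¬ j ∈ S) n) := by
      rw [h6] at h4
      by_contra hcon
      have h9 : f ((1/2)^(n+1)) * 2^(Nat.count (fun j => ¬ j ∈ S) n) *
          2^(Nat.count (· ∈ S) n + 1) < 1 * 2^(Nat.count (· ∈ S) n + 1) := by
        apply mul_lt_mul_of_pos_right (not_le.1 hcon) h7
      linarith
    rw [one_div_pow]
    exact (div_le_iff₀ (by positivity)).2 h8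

open Classical in
theorem H_ne_zero {f : ℝ → ℝ} (hf : IsGauge f) {n0 : ℕ}
    (hS : ∀ n, n0 ≤ n → (2:ℝ)^(Nat.count (· ∈ S) n + 1) ≤ f ((1/2)^(n+1)) * 2^(n+1))
    {A : Set ℝ} (hA : volume (yv S '' A) ≠ 0) : H f A ≠ 0 := by
  intro h0
  rw [← haus_eq hf] at h0
  have h1 : preH f ((1/2)^n0) A = 0 := by
    refine le_antisymm ?_ bot_le
    rw [← h0]
    exact le_iSup_of_le ((1/2)^n0) (le_iSup_of_le (by positivity) le_rfl)
  have h2 : volume (yv S '' A) ≤ 3 * preH f ((1/2)^n0) A := by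
    unfold preH
    rw [ENNReal.mul_iInf_of_ne (by norm_num) (by norm_num)]
    refine le_iInf fun U => ?_
    rw [ENNReal.mul_iInf_of_ne (by norm_num) (by norm_num)]
    refine le_iInf fun hU => ?_
    rw [ENNReal.mul_iInf_of_ne (by norm_num) (by norm_num)]
    refine le_iInf fun hd => ?_
    have h3 : yv S '' A ⊆ ⋃ i, yv S '' U i := by
      rw [← image_iUnion]
      exact image_mono hU
    refine (measure_mono h3).trans ((measure_iUnion_le _).trans ?_)
    rw [← ENNReal.tsum_mul_left]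
    exact ENNReal.tsum_le_tsum fun i => volume_yv_le_gauge hf hS (hd i)
  rw [h1, mul_zero] at h2
  exact hA (le_antisymm h2 bot_le)

end Lower

/-! ### Gauges which are at most linear for small values -/

theorem H_Icc_lt_top {f : ℝ → ℝ} (hf : IsGauge f) {C : ℝ}
    (hC : ∀ δ > 0, ∃ t, 0 < t ∧ t < δ ∧ f t ≤ C * t) (a : ℝ) : H f (Icc a (a+1)) < ⊤ := by
  have h1 : ∀ k : ℕ, ∃ t, 0 < t ∧ t < 1 / ((k:ℝ) + 1) ∧ f t ≤ C * t := fun k =>
    hC _ (by positivity)
  choose t ht0 ht1 ht2 using h1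
  have hC0 : 0 < C := by
    by_contra hcon
    have h3 := hf.pos _ (ht0 0)
    have h4 : C * t 0 ≤ 0 := mul_nonpos_of_nonpos_of_nonneg (not_lt.1 hcon) (ht0 0).le
    linarith [ht2 0]
  have htlt : ∀ k, t k < 1 := fun k => (ht1 k).trans_le (by
    rw [div_le_one (by positivity)]
    have : (0:ℝ) ≤ k := by positivity
    linarith)
  have hlim : Tendsto (fun k => ENNReal.ofReal (t k)) atTop (𝓝 0) := by
    rw [← ENNReal.ofReal_zero]
    refine ENNReal.tendsto_ofReal ?_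
    exact squeeze_zero (fun k => (ht0 k).le) (fun k => (ht1 k).le) tendsto_one_div_add_atTop_nhds_zero_nat
  have hdiam : ∀ k (i : Fin (⌈1 / t k⌉₊)), Metric.ediam (Icc (a + i * t k) (a + (i + 1) * t k)) =
      ENNReal.ofReal (t k) := by
    intro k i
    rw [Real.ediam_Icc]
    congr 1
    ring
  have h2 := Measure.mkMetric_le_liminf_sum (β := ℕ) (ι := fun k => Fin (⌈1 / t k⌉₊))
    (Icc a (a+1)) (l := atTop) (fun k => ENNReal.ofReal (t k)) hlim
    (fun k i => Icc (a + i * t k) (a + (i + 1) * t k))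
    (Eventually.of_forall fun k i => (hdiam k i).le) (Eventually.of_forall fun k x hx => ?_)
    fun d => ENNReal.ofReal (f d.toReal)
  · refine lt_of_le_of_lt h2 (lt_of_le_of_lt (b := ENNReal.ofReal (2 * C)) ?_ ENNReal.ofReal_lt_top)
    refine liminf_le_of_le (by isBoundedDefault) fun b hb => ?_
    obtain ⟨k, hk⟩ := hb.exists
    refine hk.trans ?_
    simp only [hdiam, ENNReal.toReal_ofReal (ht0 k).le, Finset.sum_const, Finset.card_univ,
      Fintype.card_fin, nsmul_eq_mul]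
    rw [← ENNReal.ofReal_natCast, ← ENNReal.ofReal_mul (by positivity)]
    apply ENNReal.ofReal_le_ofReal
    have h3 := (Nat.ceil_lt_add_one (by have := ht0 k; positivity : 0 ≤ 1 / t k)).le
    calc (⌈1 / t k⌉₊ : ℝ) * f (t k) ≤ (1 / t k + 1) * (C * t k) := by
          have h5 := hf.pos _ (ht0 k)
          have h6 := ht0 k
          exact mul_le_mul h3 (ht2 k) h5.le (by positivity)
      _ = C * (1 + t k) := by
          have := (ht0 k).ne'
          field_simp
      _ ≤ 2 * C := by nlinarith [htlt k]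
  · have h3 : 0 ≤ (x - a) / t k := div_nonneg (by linarith [hx.1]) (ht0 k).le
    have h4 := Nat.floor_le h3
    have h5 := Nat.lt_floor_add_one ((x - a) / t k)
    rcases eq_or_lt_of_le hx.2 with h6 | h6
    · -- the right end point
      have hpos : 0 < ⌈1 / t k⌉₊ := Nat.ceil_pos.2 (by have := ht0 k; positivity)
      refine mem_iUnion.2 ⟨⟨⌈1 / t k⌉₊ - 1, by omega⟩, ?_⟩
      have h7 : ((⌈1 / t k⌉₊ - 1 : ℕ) : ℝ) = (⌈1 / t k⌉₊ : ℝ) - 1 := by
        rw [Nat.cast_sub (by omega)]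
        simp
      have h8 := Nat.le_ceil (1 / t k)
      have h9 := Nat.ceil_lt_add_one (by have := ht0 k; positivity : 0 ≤ 1 / t k)
      have h10 : 1 / t k * t k = 1 := by
        have := (ht0 k).ne'
        field_simp
      constructor
      · show a + ((⌈1 / t k⌉₊ - 1 : ℕ) : ℝ) * t k ≤ x
        rw [h7, h6]
        nlinarith [ht0 k]
      · show x ≤ a + (((⌈1 / t k⌉₊ - 1 : ℕ) : ℝ) + 1) * t k
        rw [h7, h6]
        nlinarith [ht0 k]
    · have h7 : ⌊(x - a) / t k⌋₊ < ⌈1 / t k⌉₊ := by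
        rw [Nat.lt_ceil]
        refine lt_of_le_of_lt h4 ?_
        exact div_lt_div_of_pos_right (by linarith) (ht0 k)
      refine mem_iUnion.2 ⟨⟨⌊(x - a) / t k⌋₊, h7⟩, ?_⟩
      have h8 : (x - a) / t k * t k = x - a := by
        have := (ht0 k).ne'
        field_simp
      constructor
      · show a + (⌊(x - a) / t k⌋₊ : ℝ) * t k ≤ x
        nlinarith [ht0 k]
      · show x ≤ a + ((⌊(x - a) / t k⌋₊ : ℝ) + 1) * t k
        nlinarith [ht0 k]

end Pool.Agent.R593.Gf
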