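import Mathlib
import Pool.Agent.R593.Gf.Haus

/-!
# Universally null sets of positive Hausdorff measure
-/

set_option autoImplicit false

namespace Pool.Agent.R593.Gf

open Filter Topology MeasureTheory Set Cardinal
open scoped ENNReal

/-- `A` is universally null: it is null for each finite Borel measure on the line which vanishes
at all points. -/
def UnivNull (A : Set ℝ) : Prop :=
  ∀ μ : Measure ℝ, IsFiniteMeasure μ → (∀ x, μ {x} = 0) → μ A = 0

/-- Each set of positive measure has a subset of finite positive measure. -/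
def Star (f : ℝ → ℝ) : Prop :=
  ∀ A : Set ℝ, 0 < haus f A → ∃ A₀ ⊆ A, 0 < haus f A₀ ∧ haus f A₀ < ⊤

/-! ### The relation -/

section Rel

variable (S : Set ℕ)

/-- All pairs `(y, r)` such that `y` belongs to the `n`-th open set coded by `r`. -/
def On (n : ℕ) : Set (ℝ × ℝ) := {q | q.1 ∈ opn (dx S q.2) n}

/-- All pairs `(y, r)` such that `y` belongs to the null set coded by `r`. -/
def Rel : Set (ℝ × ℝ) :=
  {q | ∀ n, volume (opn (dx S q.2) n) ≤ (2:ℝ≥0∞)⁻¹ ^ n ∧ q.1 ∈ opn (dx S q.2) n}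

theorem measurableSet_On (n : ℕ) : MeasurableSet (On S n) := by
  have : On S n = ⋃ m, ({q | dx S q.2 (Nat.pair n m) = true} ∩ {q | q.1 ∈ ivl m}) := by
    ext q
    simp [On, opn]
  rw [this]
  refine MeasurableSet.iUnion fun m => MeasurableSet.inter ?_ ?_
  · exact measurable_snd (measurableSet_dig (Nat.nth (· ∈ S) (2 * Nat.pair n m)) true)
  · exact measurable_fst measurableSet_Ioo

theorem measurableSet_Rel : MeasurableSet (Rel S) := by
  have : Rel S = ⋂ n, ({q | volume ((fun y => (y, q.2)) ⁻¹' On S n) ≤ (2:ℝ≥0∞)⁻¹ ^ n} ∩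
      On S n) := by
    ext q
    simp only [Rel, mem_ofPred_eq, mem_iInter, mem_inter_iff]
    rfl
  rw [this]
  refine MeasurableSet.iInter fun n => MeasurableSet.inter ?_ (measurableSet_On S n)
  have h1 : Measurable fun r : ℝ => volume ((fun y : ℝ => (y, r)) ⁻¹' On S n) :=
    measurable_measure_prodMk_right (measurableSet_On S n)
  exact measurableSet_le (h1.comp measurable_snd) measurable_const

theorem volume_section (r : ℝ) : volume ((fun y => (y, r)) ⁻¹' Rel S) = 0 := by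
  rcases ((fun y => (y, r)) ⁻¹' Rel S).eq_empty_or_nonempty with h | ⟨y0, hy0⟩
  · rw [h, measure_empty]
  · have h1 : ∀ n : ℕ, volume ((fun y => (y, r)) ⁻¹' Rel S) ≤ (2:ℝ≥0∞)⁻¹ ^ n := by
      intro n
      refine (measure_mono ?_).trans (hy0 n).1
      intro y hy
      exact (hy n).2
    have h2 : Tendsto (fun L : ℕ => (2 : ENNReal)⁻¹ ^ L) atTop (𝓝 0) :=
      ENNReal.tendsto_pow_atTop_nhds_zero_of_lt_one (by
        rw [ENNReal.inv_lt_one]; exact ENNReal.one_lt_two)
    exact le_antisymm (ge_of_tendsto' h2 h1) bot_le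

theorem ae_section (μ : Measure ℝ) [IsFiniteMeasure μ] :
    ∀ᵐ y ∂(volume : Measure ℝ), μ (Prod.mk y ⁻¹' Rel S) = 0 := by
  have h1 : ((volume : Measure ℝ).prod μ) (Rel S) = 0 := by
    rw [Measure.prod_apply_symm (measurableSet_Rel S)]
    simp only [volume_section, lintegral_zero]
  exact Measure.measure_ae_null_of_prod_null h1

end Rel

/-! ### The construction -/

theorem exists_univNull {S : Set ℕ} (hS : S.Infinite) (hS' : Sᶜ.Infinite) :
    ∃ A : Set ℝ, UnivNull A ∧ volume (yv S '' A) ≠ 0 := by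
  classical
  -- the least size of a set which is not null
  have hne : {c : Cardinal.{0} | ∃ Y : Set ℝ, volume Y ≠ 0 ∧ #Y = c}.Nonempty :=
    ⟨_, Set.univ, by rw [Real.volume_univ]; exact ENNReal.top_ne_zero, rfl⟩
  obtain ⟨κ, hκ⟩ : ∃ κ, κ = sInf {c : Cardinal.{0} | ∃ Y : Set ℝ, volume Y ≠ 0 ∧ #Y = c} := ⟨_, rfl⟩
  obtain ⟨Y0, hY0, hY0c⟩ := csInf_mem hne
  rw [← hκ] at hY0c
  have hsmall : ∀ C : Set ℝ, #C < κ → volume C = 0 := by
    intro C hC
    by_contra hcon
    have h1 : sInf {c : Cardinal.{0} | ∃ Y : Set ℝ, volume Y ≠ 0 ∧ #Y = c} ≤ #C :=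
      csInf_le' ⟨C, hcon, rfl⟩
    rw [← hκ] at h1
    exact absurd hC (not_lt.2 h1)
  -- a set in the unit interval
  obtain ⟨n, hn⟩ : ∃ n : ℤ, volume (Y0 ∩ Ico (n:ℝ) (n+1)) ≠ 0 := by
    by_contra hcon
    push Not at hcon
    apply hY0
    have h1 : Y0 = ⋃ n : ℤ, (Y0 ∩ Ico (n:ℝ) (n+1)) := by
      rw [← inter_iUnion, iUnion_Ico_intCast, inter_univ]
    rw [h1, measure_iUnion_null_iff]
    exact hcon
  obtain ⟨Y, hY⟩ : ∃ Y : Set ℝ, Y = (fun y => y + (n:ℝ)) ⁻¹' (Y0 ∩ Ico (n:ℝ) (n+1)) := ⟨_, rfl⟩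
  have hYv : volume Y ≠ 0 := by
    rw [hY, measure_preimage_add_right]
    exact hn
  have hY1 : ∀ y ∈ Y, 0 ≤ y ∧ y < 1 := by
    intro y hy
    rw [hY] at hy
    have h1 : (n:ℝ) ≤ y + n := hy.2.1
    have h2 : y + n < (n:ℝ) + 1 := hy.2.2
    constructor <;> linarith
  have hYY : ∀ y ∈ Y, y + (n:ℝ) ∈ Y0 := by
    intro y hy
    rw [hY] at hy
    exact hy.1
  have hYc : #Y ≤ κ := by
    rw [← hY0c]
    refine Cardinal.mk_le_of_injective (f := fun y : Y => (⟨y.1 + n, hYY y.1 y.2⟩ : Y0)) ?_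
    intro y y' h
    have h1 : y.1 + (n:ℝ) = y'.1 + n := congrArg Subtype.val h
    exact Subtype.ext (add_right_cancel h1)
  obtain ⟨g⟩ : Nonempty (Y ↪ κ.ord.ToType) := by
    rw [← Cardinal.le_def, Cardinal.mk_ord_toType]
    exact hYc
  have hinit : ∀ y : Y, #{y' : Y | g y' < g y} < κ := by
    intro y
    have h1 : #(Iio (g y)) < κ := by
      have := Cardinal.mk_Iio_lt (g y) (by simp)
      rwa [Cardinal.mk_ord_toType] at this
    refine lt_of_le_of_lt ?_ h1
    refine Cardinal.mk_le_of_injective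
      (f := fun y' : {y' : Y | g y' < g y} => (⟨g y'.1, y'.2⟩ : Iio (g y))) ?_
    intro a b h
    have h2 : g a.1 = g b.1 := congrArg Subtype.val h
    exact Subtype.ext (g.injective h2)
  have hcode : ∀ y : Y, ∃ x : ℕ → Bool, ∀ n, volume (opn x n) ≤ (2:ℝ≥0∞)⁻¹ ^ n ∧
      (Subtype.val '' {y' : Y | g y' < g y} : Set ℝ) ⊆ opn x n := by
    intro y
    exact exists_code (hsmall _ (lt_of_le_of_lt mk_image_le (hinit y)))
  choose x hx using hcode
  let ρ : Y → ℝ := fun y => val (mix S (x y) (dig y.1))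
  refine ⟨range ρ, ?_, ?_⟩
  · intro μ hμ h0
    obtain ⟨y0, hy0⟩ : ∃ y0 : Y, μ (Prod.mk y0.1 ⁻¹' Rel S) = 0 := by
      by_contra hcon
      push Not at hcon
      apply hYv
      refine measure_mono_null (fun y hy => ?_) (ae_iff.1 (ae_section S μ))
      exact hcon ⟨y, hy⟩
    have h1 : range ρ ⊆ (Prod.mk y0.1 ⁻¹' Rel S) ∪ ({ρ y0} ∪ ρ '' {y' : Y | g y' < g y0}) := by
      rintro _ ⟨y, rfl⟩
      rcases lt_trichotomy (g y) (g y0) with h | h | h
      · exact Or.inr (Or.inr ⟨y, h, rfl⟩)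
      · rw [g.injective h]
        exact Or.inr (Or.inl rfl)
      · refine Or.inl fun n => ?_
        have h2 : dx S (ρ y) = x y := funext fun m => dx_mix hS (x y) (dig y.1) m
        show volume (opn (dx S (ρ y)) n) ≤ (2:ℝ≥0∞)⁻¹ ^ n ∧ y0.1 ∈ opn (dx S (ρ y)) n
        rw [h2]
        exact ⟨(hx y n).1, (hx y n).2 ⟨y0, h, rfl⟩⟩
    refine measure_mono_null h1 (measure_union_null hy0 (measure_union_null (h0 _) ?_))
    refine null_of_small μ h0 fun C hC => hsmall C ?_
    exact lt_of_le_of_lt (hC.trans mk_image_le) (hinit y0)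
  · have h1 : yv S '' range ρ = Y := by
      ext y
      constructor
      · rintro ⟨_, ⟨y', rfl⟩, rfl⟩
        have h2 : yv S (ρ y') = y'.1 := by
          rw [yv_mix hS hS', val_dig (hY1 _ y'.2).1 (hY1 _ y'.2).2]
        rw [h2]
        exact y'.2
      · intro hy
        refine ⟨_, ⟨⟨y, hy⟩, rfl⟩, ?_⟩
        show yv S (val (mix S (x ⟨y, hy⟩) (dig y))) = y
        rw [yv_mix hS hS', val_dig (hY1 _ hy).1 (hY1 _ hy).2]
    rw [h1]
    exact hYv

open Classical in
theorem exists_positions {f : ℝ → ℝ}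
    (hf : ∀ C : ℝ, ∃ δ > 0, ∀ t, 0 < t → t < δ → C * t < f t) :
    ∃ (S : Set ℕ) (n0 : ℕ), S.Infinite ∧ Sᶜ.Infinite ∧
      ∀ n, n0 ≤ n → (2:ℝ)^(Nat.count (· ∈ S) n + 1) ≤ f ((1/2)^(n+1)) * 2^(n+1) := by
  have h1 : ∀ k : ℕ, ∃ N : ℕ, ∀ n, N ≤ n → (2:ℝ)^(k+2) ≤ f ((1/2)^(n+1)) * 2^(n+1) := by
    intro k
    obtain ⟨δ, hδ, h⟩ := hf (2^(k+2))
    obtain ⟨N, hN⟩ := exists_pow_lt_of_lt_one hδ (by norm_num : (1/2:ℝ) < 1)
    refine ⟨N, fun n hn => ?_⟩
    have h2 : (1/2:ℝ)^(n+1) < δ :=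
      lt_of_le_of_lt (pow_le_pow_of_le_one (by norm_num) (by norm_num) (by omega)) hN
    have h3 := h _ (by positivity) h2
    have h4 : (1/2:ℝ)^(n+1) * 2^(n+1) = 1 := by
      rw [← mul_pow]; norm_num
    calc (2:ℝ)^(k+2) = 2^(k+2) * (1/2)^(n+1) * 2^(n+1) := by rw [mul_assoc, h4, mul_one]
      _ ≤ _ := by gcongr
  choose N hN using h1
  let P : ℕ → ℕ := fun k => Nat.rec (N 0) (fun k p => max (N (k+1)) (p + 2)) k
  have hP : ∀ k, P (k+1) = max (N (k+1)) (P k + 2) := fun k => rfl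
  have hPN : ∀ k, N k ≤ P k := by
    intro k
    cases k with
    | zero => exact le_rfl
    | succ k => rw [hP]; exact le_max_left _ _
  have hP2 : ∀ k, P k + 2 ≤ P (k+1) := fun k => by rw [hP]; exact le_max_right _ _
  have hPm : StrictMono P := strictMono_nat_of_lt_succ fun k => by have := hP2 k; omega
  have hcount : ∀ k, Nat.count (· ∈ range P) (P k) = k := by
    intro k
    rw [Nat.count_eq_card_filter_range]
    have : (Finset.range (P k)).filter (· ∈ range P) = (Finset.range k).image P := by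
      ext j
      simp only [Finset.mem_filter, Finset.mem_range, mem_range, Finset.mem_image]
      constructor
      · rintro ⟨h1, i, rfl⟩
        exact ⟨i, hPm.lt_iff_lt.1 h1, rfl⟩
      · rintro ⟨i, h1, rfl⟩
        exact ⟨hPm.lt_iff_lt.2 h1, i, rfl⟩
    rw [this, Finset.card_image_of_injective _ hPm.injective, Finset.card_range]
  refine ⟨range P, P 0 + 1, infinite_range_of_injective hPm.injective, ?_, ?_⟩
  · refine Set.infinite_of_injective_forall_mem (f := fun k => P k + 1) ?_ ?_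
    · intro a b h
      exact hPm.injective (Nat.succ_injective h)
    · rintro k ⟨j, hj⟩
      have h2 : P k < P j := by omega
      have h3 : k + 1 ≤ j := hPm.lt_iff_lt.1 h2
      have h4 := hPm.monotone h3
      have h5 := hP2 k
      omega
  · intro n hn
    obtain ⟨k, hk⟩ : ∃ k, Nat.count (· ∈ range P) n = k + 1 := by
      have h2 : Nat.count (· ∈ range P) (P 0 + 1) ≤ Nat.count (· ∈ range P) n :=
        Nat.count_monotone _ hn
      rw [Nat.count_succ, hcount, if_pos (mem_range_self 0)] at h2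
      exact ⟨Nat.count (· ∈ range P) n - 1, by omega⟩
    have h3 : P k < n := by
      refine lt_of_not_ge fun hcon => ?_
      have h4 := Nat.count_monotone (· ∈ range P) hcon
      rw [hcount, hk] at h4
      omega
    rw [hk]
    exact hN k n ((hPN k).trans h3.le)

/-- For every gauge which is not at most linear there is a universally null set of positive
measure. -/
theorem exists_univNull_haus {f : ℝ → ℝ} (hf : IsGauge f)
    (h : ¬ ∃ C : ℝ, ∀ δ > 0, ∃ t, 0 < t ∧ t < δ ∧ f t ≤ C * t) :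
    ∃ A : Set ℝ, UnivNull A ∧ 0 < haus f A := by
  push Not at h
  obtain ⟨S, n0, hS, hS', hn0⟩ := exists_positions (f := f) fun C => by
    obtain ⟨δ, hδ, h1⟩ := h C
    exact ⟨δ, hδ, fun t ht1 ht2 => h1 t ht1 ht2⟩
  obtain ⟨A, hA, hA'⟩ := exists_univNull hS hS'
  refine ⟨A, hA, ?_⟩
  rw [haus_eq hf]
  exact pos_iff_ne_zero.2 (H_ne_zero hf hn0 hA')

/-- Subsets of finite measure of a universally null set have measure zero. -/
theorem haus_eq_zero {f : ℝ → ℝ} (hf : IsGauge f) {A A₀ : Set ℝ} (hA : UnivNull A) (hA₀ : A₀ ⊆ A)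
    (hfin : haus f A₀ < ⊤) : haus f A₀ = 0 := by
  rw [haus_eq hf] at hfin ⊢
  have h1 : IsFiniteMeasure ((H f).restrict A₀) :=
    ⟨by rw [Measure.restrict_apply_univ]; exact hfin⟩
  have h2 : ((H f).restrict A₀) A = 0 := by
    refine hA _ h1 fun x => ?_
    rw [Measure.restrict_apply (measurableSet_singleton x)]
    exact measure_mono_null inter_subset_left (H_singleton hf x)
  have h3 : ((H f).restrict A₀) A₀ = 0 := measure_mono_null hA₀ h2
  rwa [Measure.restrict_apply_self] at h3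

theorem star_iff {f : ℝ → ℝ} (hf : IsGauge f) :
    Star f ↔ ∃ C : ℝ, ∀ δ > 0, ∃ t, 0 < t ∧ t < δ ∧ f t ≤ C * t := by
  constructor
  · intro hstar
    by_contra hcon
    obtain ⟨A, hA, hpos⟩ := exists_univNull_haus hf hcon
    obtain ⟨A₀, h1, h2, h3⟩ := hstar A hpos
    exact absurd (haus_eq_zero hf hA h1 h3) h2.ne'
  · rintro ⟨C, hC⟩ A hA
    rw [haus_eq hf] at hA
    obtain ⟨n, hn⟩ : ∃ n : ℤ, H f (A ∩ Ico (n:ℝ) (n+1)) ≠ 0 := by
      by_contra hcon
      push Not at hcon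
      apply hA.ne'
      have h1 : A = ⋃ n : ℤ, (A ∩ Ico (n:ℝ) (n+1)) := by
        rw [← inter_iUnion, iUnion_Ico_intCast, inter_univ]
      rw [h1, measure_iUnion_null_iff]
      exact hcon
    refine ⟨_, inter_subset_left (t := Ico (n:ℝ) (n+1)), ?_, ?_⟩
    · rw [haus_eq hf]
      exact pos_iff_ne_zero.2 hn
    · rw [haus_eq hf]
      refine lt_of_le_of_lt (measure_mono ?_) (H_Icc_lt_top hf hC n)
      exact inter_subset_right.trans Ico_subset_Icc_self

end Pool.Agent.R593.Gf
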